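import Mathlib

/-!
# MP_369d67_an: which sets `{(a n + b) / (a n + d)}` are sets of multiplicative recurrence

Classification: for `b ≠ d` the set `S_{a,b,d}` is a set of topological multiplicative recurrence if
and only if for every prime `p ∣ a` the full power `p ^ v_p(a)` divides `b` or divides `d`. In
particular the conjectured criterion (`a ∣ b` or `a ∣ d`) is false, e.g. for `(a,b,d) = (6,3,2)`.
-/

set_option autoImplicit false

namespace Pool.Agent.Results.MP_369d67_an.Classification

/-- `R` is a set of topological multiplicative recurrence, in the colouring formulation: every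
finite colouring of `{1, 2, …}` has `x, y` of one colour with `x / y ∈ R`. -/
def IsRec (R : Set ℚ) : Prop :=
  ∀ (k : ℕ) (c : ℕ → Fin k), ∃ x y : ℕ, 0 < x ∧ 0 < y ∧ c x = c y ∧ (x : ℚ) / y ∈ R

/-- `S_{a,b,d} = {(a n + b) / (a n + d) : n ≥ 1, a n + b > 0, a n + d > 0}`. -/
def S (a : ℕ) (b d : ℤ) : Set ℚ :=
  {r | ∃ n : ℕ, 1 ≤ n ∧ 0 < (a : ℤ) * n + b ∧ 0 < (a : ℤ) * n + d ∧
    r = (((a : ℤ) * n + b : ℤ) : ℚ) / (((a : ℤ) * n + d : ℤ) : ℚ)}

/-! ### Sufficiency -/

/-- For coprime `A, B` there are arbitrarily long sequences `x 0 < x 1 < …` with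
`A (x j - x i) ∣ x i` and `B (x j - x i) ∣ x j` for `i < j`. -/
lemma exists_seq {A B : ℕ} (hA : 0 < A) (hB : 0 < B) (hAB : Nat.Coprime A B) (Q : ℕ) (k : ℕ) :
    ∃ x : ℕ → ℕ, (∀ i < k, 0 < x i) ∧ ∀ j < k, ∀ i < j, x i < x j ∧ A * (x j - x i) ∣ x i ∧
      B * (x j - x i) ∣ x j ∧ Q * (x j - x i) ≤ x i := by
  induction k with
  | zero => exact ⟨fun _ => 1, by omega, by omega⟩
  | succ k ih =>
    obtain ⟨x, hx0, hx⟩ := ih
    -- the scaled sequence
    set W : ℕ := A * B * ∏ j ∈ Finset.range k, ∏ i ∈ Finset.range j, (B * x j - B * x i) with hW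
    have hWpos : 0 < W := by
      rw [hW]
      apply Nat.mul_pos (Nat.mul_pos hA hB)
      apply Finset.prod_pos
      intro j hj
      apply Finset.prod_pos
      intro i hi
      rw [Finset.mem_range] at hi hj
      have := (hx j hj i hi).1
      have := Nat.mul_lt_mul_of_pos_left this hB
      omega
    have hWd : ∀ j < k, ∀ i < j, A * B * (B * x j - B * x i) ∣ W := by
      intro j hj i hi
      rw [hW]
      apply Nat.mul_dvd_mul_left
      exact (Finset.dvd_prod_of_mem (fun i => B * x j - B * x i) (Finset.mem_range.2 hi)).trans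
        (Finset.dvd_prod_of_mem (fun j => ∏ i ∈ Finset.range j, (B * x j - B * x i))
          (Finset.mem_range.2 hj))
    -- the part of `W` prime to `B`
    set c : ℕ := ∏ g ∈ W.divisors.filter (fun g => Nat.Coprime g B), g with hc
    have hcpos : 0 < c := by
      apply Finset.prod_pos
      intro g hg
      rw [Finset.mem_filter, Nat.mem_divisors] at hg
      exact Nat.pos_of_dvd_of_pos hg.1.1 hWpos
    have hcB : Nat.Coprime c B := by
      apply Nat.Coprime.prod_left
      intro g hg
      exact (Finset.mem_filter.1 hg).2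
    have hcg : ∀ g, g ∣ W → Nat.Coprime g B → g ∣ c := by
      intro g hg hgB
      exact Finset.dvd_prod_of_mem (fun g => g)
        (Finset.mem_filter.2 ⟨Nat.mem_divisors.2 ⟨hg, hWpos.ne'⟩, hgB⟩)
    set U : ℕ := A * ∏ j ∈ Finset.range k, (B * x j + c) with hU
    have hcop : ∀ j, Nat.Coprime (B * x j + c) B := by
      intro j
      rw [Nat.Coprime, Nat.gcd_comm, Nat.gcd_mul_left_add_right, Nat.gcd_comm]
      exact hcB
    have hUB : Nat.Coprime U B := by
      apply Nat.Coprime.mul_left hAB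
      apply Nat.Coprime.prod_left
      intro j _
      exact hcop j
    have hUpos : 0 < U := by
      rw [hU]
      apply Nat.mul_pos hA
      apply Finset.prod_pos
      intro j _
      omega
    have hgcd : Nat.gcd W U ∣ c := by
      apply hcg _ (Nat.gcd_dvd_left _ _)
      exact Nat.Coprime.coprime_dvd_left (Nat.gcd_dvd_right _ _) hUB
    -- the shift `P`
    obtain ⟨P0, hP0W, hP0U⟩ : ∃ P0 : ℕ, P0 ≡ 0 [MOD W] ∧ P0 ≡ c [MOD U] := by
      have h : 0 ≡ c [MOD Nat.gcd W U] := by
        rw [Nat.ModEq.comm]; exact (Nat.modEq_zero_iff_dvd.2 hgcd)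
      exact ⟨(Nat.chineseRemainder' h).1, (Nat.chineseRemainder' h).2.1,
        (Nat.chineseRemainder' h).2.2⟩
    -- make it large
    set big : ℕ := c + 1 + Q * (∑ j ∈ Finset.range k, (B * x j + c)) with hbig
    set P : ℕ := P0 + W * U * big with hP
    have hPbig : big ≤ P := by
      have : 1 ≤ W * U := Nat.mul_pos hWpos hUpos
      have := Nat.mul_le_mul_right big this
      omega
    have hPW : W ∣ P := by
      apply Nat.dvd_add (Nat.modEq_zero_iff_dvd.1 hP0W)
      rw [mul_assoc]; exact Nat.dvd_mul_right _ _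
    have hPc : c < P := by omega
    have hPU : U ∣ P - c := by
      have h1 : P ≡ c [MOD U] := by
        have : W * U * big ≡ 0 [MOD U] := by
          rw [Nat.modEq_zero_iff_dvd]
          exact Dvd.intro_left W rfl |>.mul_right big
        have := hP0U.add this
        simpa using this
      exact (Nat.modEq_iff_dvd' hPc.le).1 h1.symm
    have hsum : ∀ j < k, B * x j + c ≤ ∑ j ∈ Finset.range k, (B * x j + c) := by
      intro j hj
      exact Finset.single_le_sum (f := fun j => B * x j + c) (fun _ _ => Nat.zero_le _)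
        (Finset.mem_range.2 hj)
    let X : ℕ → ℕ := fun n => match n with
      | 0 => P - c
      | n + 1 => P + B * x n
    refine ⟨X, ?_, ?_⟩
    · intro i _
      cases i with
      | zero => change 0 < P - c; omega
      | succ i => change 0 < P + B * x i; omega
    · intro j hj i hij
      obtain ⟨j, rfl⟩ : ∃ j', j = j' + 1 := ⟨j - 1, by omega⟩
      have hjk : j < k := by omega
      cases i with
      | zero =>
        change P - c < P + B * x j ∧ A * (P + B * x j - (P - c)) ∣ P - c ∧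
          B * (P + B * x j - (P - c)) ∣ P + B * x j ∧ Q * (P + B * x j - (P - c)) ≤ P - c
        have e1 : P + B * x j - (P - c) = B * x j + c := by omega
        have hjx := hx0 j hjk
        have hd : A * (B * x j + c) ∣ P - c := by
          refine Dvd.dvd.trans ?_ hPU
          rw [hU]
          apply Nat.mul_dvd_mul_left
          exact Finset.dvd_prod_of_mem (fun j => B * x j + c) (Finset.mem_range.2 hjk)
        rw [e1]
        refine ⟨by omega, hd, ?_, ?_⟩
        · apply Nat.Coprime.mul_dvd_of_dvd_of_dvd (hcop j).symm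
          · apply Nat.dvd_add _ (Nat.dvd_mul_right _ _)
            refine Dvd.dvd.trans ?_ hPW
            rw [hW, mul_comm A B, mul_assoc]
            exact Nat.dvd_mul_right _ _
          · have e2 : P + B * x j = (P - c) + (B * x j + c) := by omega
            rw [e2]
            exact Nat.dvd_add ((Nat.dvd_mul_left _ _).trans hd) (dvd_refl _)
        · have h1 := Nat.mul_le_mul_left Q (hsum j hjk)
          omega
      | succ i =>
        have hij' : i < j := by omega
        change P + B * x i < P + B * x j ∧ A * (P + B * x j - (P + B * x i)) ∣ P + B * x i ∧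
          B * (P + B * x j - (P + B * x i)) ∣ P + B * x j ∧
            Q * (P + B * x j - (P + B * x i)) ≤ P + B * x i
        obtain ⟨h1, h2, h3, h4⟩ := hx j hjk i hij'
        have h1' := Nat.mul_lt_mul_of_pos_left h1 hB
        have e1 : P + B * x j - (P + B * x i) = B * x j - B * x i := by omega
        have e2 : B * x j - B * x i = B * (x j - x i) := (Nat.mul_sub B (x j) (x i)).symm
        rw [e1]
        refine ⟨by omega, ?_, ?_, ?_⟩
        · apply Nat.dvd_add
          · refine Dvd.dvd.trans ?_ (((hWd j hjk i hij')).trans hPW)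
            exact Nat.mul_dvd_mul_right (Nat.dvd_mul_right _ _) _
          · rw [e2, ← mul_assoc, mul_comm A B, mul_assoc]
            exact Nat.mul_dvd_mul_left _ h2
        · apply Nat.dvd_add
          · refine Dvd.dvd.trans ?_ (((hWd j hjk i hij')).trans hPW)
            exact Nat.mul_dvd_mul_right (Nat.dvd_mul_left _ _) _
          · rw [e2]
            exact Nat.mul_dvd_mul_left _ h3
        · rw [e2]
          have := Nat.mul_le_mul_left B h4
          calc Q * (B * (x j - x i)) = B * (Q * (x j - x i)) := by ring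
            _ ≤ B * x i := this
            _ ≤ P + B * x i := Nat.le_add_left _ _

lemma suff_aux {a A B : ℕ} {b d : ℤ} (ha : a = A * B) (ha0 : 0 < a) (hAB : Nat.Coprime A B)
    (hA : (A : ℤ) ∣ d) (hB : (B : ℤ) ∣ b) (hbd : d < b) : IsRec (S a b d) := by
  have hA0 : 0 < A := Nat.pos_of_ne_zero (by rintro rfl; simp at ha; omega)
  have hB0 : 0 < B := Nat.pos_of_ne_zero (by rintro rfl; simp at ha; omega)
  intro k c
  obtain ⟨x, hx0, hx⟩ := exists_seq hA0 hB0 hAB (a + d.natAbs) (k + 1)
  obtain ⟨i, j, hij, hc⟩ : ∃ i j : ℕ, (i < j ∧ j < k + 1) ∧ c (x j) = c (x i) := by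
    obtain ⟨i, j, hij, h⟩ := Fintype.exists_ne_map_eq_of_card_lt (fun i : Fin (k + 1) => c (x i))
      (by simp)
    rcases lt_or_gt_of_ne hij with h1 | h1
    · exact ⟨i, j, ⟨h1, j.2⟩, h.symm⟩
    · exact ⟨j, i, ⟨h1, i.2⟩, h⟩
  obtain ⟨hij, hjk⟩ := hij
  obtain ⟨h1, h2, h3, h4⟩ := hx j hjk i hij
  set δ := x j - x i with hδ
  have hδ0 : 0 < δ := by omega
  obtain ⟨q1, hq1⟩ := h2
  obtain ⟨q2, hq2⟩ := h3
  -- `q = x i / δ = A q1`, `q + 1 = x j / δ = B q2`
  have e1 : x i = δ * (A * q1) := by rw [hq1]; ring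
  have e2 : x j = δ * (B * q2) := by rw [hq2]; ring
  have e3 : A * q1 + 1 = B * q2 := by
    have h5 : δ * (A * q1 + 1) = δ * (B * q2) := by
      rw [← e2, mul_add, ← e1]; omega
    exact Nat.eq_of_mul_eq_mul_left hδ0 h5
  have h5 : a + d.natAbs ≤ A * q1 := by
    rw [e1, mul_comm δ] at h4
    exact Nat.le_of_mul_le_mul_right h4 hδ0
  -- divisibility
  have hdvd : (a : ℤ) ∣ (A * q1 : ℤ) * (b - d) - d := by
    rw [ha]
    push_cast
    apply IsCoprime.mul_dvd (Nat.isCoprime_iff_coprime.2 hAB)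
    · apply dvd_sub _ hA
      exact Dvd.dvd.mul_right (Dvd.intro _ rfl) _
    · have : (A * q1 : ℤ) * (b - d) - d = (B * q2 : ℤ) * (b - d) - b := by
        have : (B * q2 : ℤ) = A * q1 + 1 := by exact_mod_cast e3.symm
        rw [this]; ring
      rw [this]
      apply dvd_sub _ hB
      exact Dvd.dvd.mul_right (Dvd.intro _ rfl) _
  obtain ⟨m, hm⟩ := hdvd
  have hq : (a : ℤ) + |d| ≤ A * q1 := by
    have : ((a + d.natAbs : ℕ) : ℤ) ≤ ((A * q1 : ℕ) : ℤ) := by exact_mod_cast h5
    push_cast at this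
    simpa using this
  have hD : 1 ≤ b - d := by omega
  have ha0' : (0 : ℤ) < a := by exact_mod_cast ha0
  have hq0 : (0 : ℤ) < A * q1 := by
    have := abs_nonneg d
    linarith
  have hm1 : 1 ≤ m := by
    have h6 : (a : ℤ) ≤ a * m := by
      rw [← hm]
      have := le_abs_self d
      nlinarith
    by_contra hcon
    push Not at hcon
    nlinarith
  obtain ⟨n, rfl⟩ := Int.eq_ofNat_of_zero_le (by omega : 0 ≤ m)
  refine ⟨x j, x i, hx0 j hjk, hx0 i (by omega), hc, n, by exact_mod_cast hm1, ?_, ?_, ?_⟩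
  · rw [← hm]
    have : (A * q1 : ℤ) * (b - d) - d + b = (A * q1 + 1) * (b - d) := by ring
    rw [this]; positivity
  · rw [← hm]
    have : (A * q1 : ℤ) * (b - d) - d + d = (A * q1) * (b - d) := by ring
    rw [this]; positivity
  · rw [← hm]
    have f1 : (A * q1 : ℤ) * (b - d) - d + b = (A * q1 + 1) * (b - d) := by ring
    have f2 : (A * q1 : ℤ) * (b - d) - d + d = (A * q1) * (b - d) := by ring
    rw [f1, f2]
    have hδ' : (δ : ℚ) ≠ 0 := by exact_mod_cast hδ0.ne'
    have hqq : ((A : ℚ) * q1) ≠ 0 := by exact_mod_cast hq0.ne'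
    have hDD : ((b : ℚ) - d) ≠ 0 := by
      have : ((b - d : ℤ) : ℚ) ≠ 0 := by exact_mod_cast (by omega : b - d ≠ 0)
      push_cast at this; exact this
    rw [e1, e2, ← e3]
    push_cast
    rw [mul_div_mul_left _ _ hδ', mul_div_mul_right _ _ hDD]

lemma IsRec.swap {a : ℕ} {b d : ℤ} (h : IsRec (S a b d)) : IsRec (S a d b) := by
  intro k c
  obtain ⟨x, y, hx, hy, hc, n, hn, h1, h2, h3⟩ := h k c
  refine ⟨y, x, hy, hx, hc.symm, n, hn, h2, h1, ?_⟩
  rw [← inv_div, h3, inv_div]

lemma suff {a : ℕ} {b d : ℤ} (ha0 : 0 < a) (hbd : b ≠ d)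
    (h : ∀ p : ℕ, p.Prime → p ∣ a →
      ((p : ℤ) ^ a.factorization p ∣ b ∨ (p : ℤ) ^ a.factorization p ∣ d)) :
    IsRec (S a b d) := by
  classical
  -- the coprime factorisation
  set I := a.primeFactors.filter (fun p : ℕ => (p : ℤ) ^ a.factorization p ∣ d) with hI
  set J := a.primeFactors.filter (fun p : ℕ => ¬ (p : ℤ) ^ a.factorization p ∣ d) with hJ
  set A : ℕ := ∏ p ∈ I, p ^ a.factorization p with hA
  set B : ℕ := ∏ p ∈ J, p ^ a.factorization p with hB
  have haAB : a = A * B := by
    rw [hA, hB, hI, hJ, Finset.prod_filter_mul_prod_filter_not]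
    conv_lhs => rw [← Nat.prod_factorization_pow_eq_self ha0.ne']
    rfl
  have hcopp : ∀ p ∈ a.primeFactors, ∀ q ∈ a.primeFactors, p ≠ q →
      Nat.Coprime (p ^ a.factorization p) (q ^ a.factorization q) := by
    intro p hp q hq hpq
    apply Nat.Coprime.pow
    exact (Nat.coprime_primes (Nat.prime_of_mem_primeFactors hp)
      (Nat.prime_of_mem_primeFactors hq)).2 hpq
  have hAB : Nat.Coprime A B := by
    apply Nat.Coprime.prod_left
    intro p hp
    apply Nat.Coprime.prod_right
    intro q hq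
    rw [hI, Finset.mem_filter] at hp
    rw [hJ, Finset.mem_filter] at hq
    apply hcopp p hp.1 q hq.1
    rintro rfl
    exact hq.2 hp.2
  have hAd : (A : ℤ) ∣ d := by
    rw [hA]
    push_cast
    apply Finset.prod_dvd_of_coprime
    · intro p hp q hq hpq
      rw [hI, Finset.mem_coe, Finset.mem_filter] at hp hq
      have := Nat.isCoprime_iff_coprime.2 (hcopp p hp.1 q hq.1 hpq)
      push_cast at this
      exact this
    · intro p hp
      rw [hI, Finset.mem_filter] at hp
      exact hp.2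
  have hBb : (B : ℤ) ∣ b := by
    rw [hB]
    push_cast
    apply Finset.prod_dvd_of_coprime
    · intro p hp q hq hpq
      rw [hJ, Finset.mem_coe, Finset.mem_filter] at hp hq
      have := Nat.isCoprime_iff_coprime.2 (hcopp p hp.1 q hq.1 hpq)
      push_cast at this
      exact this
    · intro p hp
      rw [hJ, Finset.mem_filter] at hp
      rcases h p (Nat.prime_of_mem_primeFactors hp.1) (Nat.dvd_of_mem_primeFactors hp.1) with h1 | h1
      · exact h1
      · exact absurd h1 hp.2
  rcases lt_or_gt_of_ne hbd with hlt | hlt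
  · apply IsRec.swap
    exact suff_aux (a := a) (A := B) (B := A) (by rw [haAB, mul_comm]) ha0 hAB.symm hBb hAd hlt
  · exact suff_aux haAB ha0 hAB hAd hBb hlt

/-! ### Necessity -/

lemma necess {a : ℕ} {b d : ℤ} (ha0 : 0 < a) (hbd : b ≠ d) (hrec : IsRec (S a b d)) :
    ∀ p : ℕ, p.Prime → p ∣ a →
      ((p : ℤ) ^ a.factorization p ∣ b ∨ (p : ℤ) ^ a.factorization p ∣ d) := by
  intro p hp hpa
  by_contra hcon
  push Not at hcon
  obtain ⟨hb, hd⟩ := hcon
  set e := a.factorization p with he
  have he0 : 0 < e := hp.factorization_pos_of_dvd ha0.ne' hpa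
  have hpe : ((p : ℤ) ^ e) ∣ a := by
    have := Nat.ordProj_dvd a p
    exact_mod_cast this
  set m := (b - d).natAbs with hm
  have hpm : 0 < p ^ m := Nat.pow_pos hp.pos
  -- the colouring by `v_p mod e` and the unit part `mod p^m`
  obtain ⟨x, y, hx, hy, hc, n, hn, h1, h2, h3⟩ := hrec (e * p ^ m) (fun x =>
    ⟨(x.factorization p % e) * p ^ m + (ordCompl[p] x) % p ^ m, by
      have h1 : x.factorization p % e < e := Nat.mod_lt _ he0
      have h2 : (ordCompl[p] x) % p ^ m < p ^ m := Nat.mod_lt _ hpm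
      calc (x.factorization p % e) * p ^ m + (ordCompl[p] x) % p ^ m
          < (x.factorization p % e) * p ^ m + p ^ m := by omega
        _ = (x.factorization p % e + 1) * p ^ m := by ring
        _ ≤ e * p ^ m := Nat.mul_le_mul_right _ h1⟩)
  simp only [Fin.mk.injEq] at hc
  have hmodx : (ordCompl[p] x) % p ^ m < p ^ m := Nat.mod_lt _ hpm
  have hmody : (ordCompl[p] y) % p ^ m < p ^ m := Nat.mod_lt _ hpm
  have hc2 : (ordCompl[p] x) % p ^ m = (ordCompl[p] y) % p ^ m := by
    have := congrArg (fun t => t % p ^ m) hc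
    simpa [Nat.add_mod, Nat.mul_mod_left] using this
  have hc1 : x.factorization p % e = y.factorization p % e := by
    rw [hc2] at hc
    have := Nat.add_right_cancel hc
    exact Nat.eq_of_mul_eq_mul_right hpm this
  -- the equation
  have heq : (x : ℤ) * (a * n + d) = y * (a * n + b) := by
    have hy' : (y : ℚ) ≠ 0 := by exact_mod_cast hy.ne'
    have hd' : (((a : ℤ) * n + d : ℤ) : ℚ) ≠ 0 := by exact_mod_cast h2.ne'
    rw [div_eq_div_iff hy' hd'] at h3
    have : (((x : ℤ) * (a * n + d) : ℤ) : ℚ) = (((a : ℤ) * n + b) * y : ℤ) := by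
      push_cast; push_cast at h3; exact h3
    have h4 : (x : ℤ) * (a * n + d) = ((a : ℤ) * n + b) * y := by exact_mod_cast this
    rw [h4]; ring
  -- the prime parts
  have hxf : p ^ x.factorization p * (ordCompl[p] x) = x := Nat.ordProj_mul_ordCompl_eq_self x p
  have hyf : p ^ y.factorization p * (ordCompl[p] y) = y := Nat.ordProj_mul_ordCompl_eq_self y p
  have hxc : ¬ p ∣ ordCompl[p] x := Nat.not_dvd_ordCompl hp hx.ne'
  have hyc : ¬ p ∣ ordCompl[p] y := Nat.not_dvd_ordCompl hp hy.ne'
  set x' := ordCompl[p] x with hx'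
  set y' := ordCompl[p] y with hy'
  have hpI : Prime (p : ℤ) := Nat.prime_iff_prime_int.1 hp
  have hcopx : ∀ r : ℕ, IsCoprime ((p : ℤ) ^ r) (x' : ℤ) := by
    intro r
    apply IsCoprime.pow_left
    exact (hpI.coprime_iff_not_dvd).2 (by exact_mod_cast hxc)
  have hcopy : ∀ r : ℕ, IsCoprime ((p : ℤ) ^ r) (y' : ℤ) := by
    intro r
    apply IsCoprime.pow_left
    exact (hpI.coprime_iff_not_dvd).2 (by exact_mod_cast hyc)
  have hp0 : (p : ℤ) ≠ 0 := by exact_mod_cast hp.ne_zero
  have hcase : ∀ {s t : ℕ} {u w : ℤ} {B D : ℤ}, s % e = t % e → s ≠ t →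
      (p : ℤ) ^ s * u * D = (p : ℤ) ^ t * w * B → (∀ r, IsCoprime ((p : ℤ) ^ r) w) → t < s →
      ((p : ℤ) ^ e) ∣ B := by
    intro s t u w B D hmod _ h hw hts
    have hle : e ≤ s - t := by
      have : e ∣ s - t := (Nat.modEq_iff_dvd' hts.le).1 (show t ≡ s [MOD e] from hmod.symm)
      exact Nat.le_of_dvd (by omega) this
    obtain ⟨r, hr⟩ := Nat.exists_eq_add_of_le hle
    have hs : s = t + (e + r) := by omega
    rw [hs, pow_add, pow_add] at h
    have h5 : (p : ℤ) ^ t * ((p : ℤ) ^ e * ((p : ℤ) ^ r * u * D)) = (p : ℤ) ^ t * (w * B) := by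
      linear_combination h
    have h6 := mul_left_cancel₀ (pow_ne_zero t hp0) h5
    have h7 : ((p : ℤ) ^ e) ∣ w * B := ⟨_, h6.symm⟩
    exact (hw e).dvd_of_dvd_mul_left h7
  have hxz : (x : ℤ) = (p : ℤ) ^ x.factorization p * x' := by exact_mod_cast hxf.symm
  have hyz : (y : ℤ) = (p : ℤ) ^ y.factorization p * y' := by exact_mod_cast hyf.symm
  have heq2 : (p : ℤ) ^ x.factorization p * x' * (a * n + d) =
      (p : ℤ) ^ y.factorization p * y' * (a * n + b) := by rw [← hxz, ← hyz]; exact heq
  have hval : x.factorization p = y.factorization p := by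
    by_contra hne
    rcases lt_or_gt_of_ne hne with hlt | hlt
    · have := hcase hc1.symm (Ne.symm hne) heq2.symm hcopx hlt
      exact hd ((dvd_add_right (Dvd.dvd.mul_right hpe _)).1 this)
    · have := hcase hc1 hne heq2 hcopy hlt
      exact hb ((dvd_add_right (Dvd.dvd.mul_right hpe _)).1 this)
  rw [hval, mul_assoc, mul_assoc] at heq2
  have heq3 := mul_left_cancel₀ (pow_ne_zero _ hp0) heq2
  -- `(x' - y') (a n + d) = y' (b - d)`
  have heq4 : ((x' : ℤ) - y') * (a * n + d) = y' * (b - d) := by linear_combination heq3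
  have hdvd : ((p : ℤ) ^ m) ∣ (x' : ℤ) - y' := by
    have : (y' : ℕ) ≡ x' [MOD p ^ m] := hc2.symm
    have := (Nat.modEq_iff_dvd).1 this
    exact_mod_cast this
  have hdvd2 : ((p : ℤ) ^ m) ∣ y' * (b - d) := by
    rw [← heq4]; exact Dvd.dvd.mul_right hdvd _
  have hdvd3 : ((p : ℤ) ^ m) ∣ b - d := (hcopy m).dvd_of_dvd_mul_left hdvd2
  have hdvd4 : p ^ m ∣ m := by
    have := Int.natAbs_dvd_natAbs.2 hdvd3
    rwa [Int.natAbs_pow, Int.natAbs_natCast, ← hm] at this
  have hm0 : 0 < m := by
    rw [hm]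
    exact Int.natAbs_pos.2 (sub_ne_zero.2 hbd)
  have := Nat.le_of_dvd hm0 hdvd4
  have h8 : m < p ^ m := Nat.lt_pow_self hp.one_lt
  omega

/-- **Classification** of the triples `(a, b, d)` with `b ≠ d` for which `S_{a,b,d}` is a set of
topological multiplicative recurrence, and the resulting disproof of the conjectured criterion. -/
theorem result :
    (∀ (a : ℕ) (b d : ℤ), 0 < a → b ≠ d →
      (IsRec (S a b d) ↔ ∀ p : ℕ, p.Prime → p ∣ a →
        ((p : ℤ) ^ a.factorization p ∣ b ∨ (p : ℤ) ^ a.factorization p ∣ d))) ∧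
    ¬ (∀ (a : ℕ) (b d : ℤ), 0 < a → b ≠ d →
      (IsRec (S a b d) ↔ ((a : ℤ) ∣ b ∨ (a : ℤ) ∣ d))) := by
  have hcl : ∀ (a : ℕ) (b d : ℤ), 0 < a → b ≠ d →
      (IsRec (S a b d) ↔ ∀ p : ℕ, p.Prime → p ∣ a →
        ((p : ℤ) ^ a.factorization p ∣ b ∨ (p : ℤ) ^ a.factorization p ∣ d)) :=
    fun a b d ha hbd => ⟨necess ha hbd, suff ha hbd⟩
  refine ⟨hcl, fun h => ?_⟩
  have h1 := (h 6 3 2 (by norm_num) (by norm_num)).1 ((hcl 6 3 2 (by norm_num) (by norm_num)).2 ?_)
  · rcases h1 with h1 | h1 <;> norm_num at h1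
  · intro p hp hp6
    have h6 : (6 : ℕ) = 2 * 3 := by norm_num
    have hp23 : p = 2 ∨ p = 3 := by
      rw [h6] at hp6
      rcases (hp.dvd_mul).1 hp6 with h | h
      · exact Or.inl ((Nat.prime_dvd_prime_iff_eq hp Nat.prime_two).1 h)
      · exact Or.inr ((Nat.prime_dvd_prime_iff_eq hp Nat.prime_three).1 h)
    rcases hp23 with rfl | rfl
    · right
      have : (6 : ℕ).factorization 2 = 1 := by
        rw [h6, Nat.factorization_mul (by norm_num) (by norm_num)]
        simp [Nat.prime_two.factorization, Nat.prime_three.factorization]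
      rw [this]; norm_num
    · left
      have : (6 : ℕ).factorization 3 = 1 := by
        rw [h6, Nat.factorization_mul (by norm_num) (by norm_num)]
        simp [Nat.prime_two.factorization, Nat.prime_three.factorization]
      rw [this]; norm_num

end Pool.Agent.Results.MP_369d67_an.Classification
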